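import Pool.Agent.Q83.FF.Stm

/-!
# Project FF, job HEATRR: the heat semigroup preserves real-rootedness
-/

set_option autoImplicit false

namespace Pool.Agent.Q95.FF

open Polynomial Finset Filter Topology Pool.Agent.Q83.FF

/-- the derivation as an endomorphism -/
noncomputable def DD : Module.End ℝ ℝ[X] := derivative

/-- `1 - e D²` -/
noncomputable def TT (e : ℝ) : Module.End ℝ ℝ[X] := 1 + (-e) • DD ^ 2

theorem TT_apply (e : ℝ) (p : ℝ[X]) : TT e p = p - C e * derivative (derivative p) := by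
  have h : (DD ^ 2) p = derivative (derivative p) := by
    rw [pow_two]
    rfl
  unfold TT
  rw [LinearMap.add_apply, Module.End.one_apply, LinearMap.smul_apply, h, smul_eq_C_mul, C_neg]
  ring

theorem DD_pow (k : ℕ) (p : ℝ[X]) : (DD ^ k) p = derivative^[k] p := by
  rw [Module.End.pow_apply]
  rfl

theorem TT_pow (e : ℝ) (n : ℕ) (p : ℝ[X]) :
    ((TT e) ^ n) p = ∑ k ∈ range (n + 1), C ((n.choose k : ℝ) * (-e) ^ k) * derivative^[2 * k] p := by
  have h : (TT e) ^ n = ∑ k ∈ range (n + 1), ((-e) • DD ^ 2) ^ k * 1 ^ (n - k) *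
      ((n.choose k : ℕ) : Module.End ℝ ℝ[X]) := by
    unfold TT
    rw [add_comm]
    exact (Commute.one_right _).add_pow n
  rw [h, LinearMap.sum_apply]
  refine Finset.sum_congr rfl fun k _ => ?_
  rw [one_pow, mul_one, _root_.smul_pow, ← pow_mul]
  rw [Module.End.mul_apply, Module.End.natCast_apply, LinearMap.smul_apply, map_nsmul, DD_pow,
    smul_eq_C_mul, nsmul_eq_mul, C_mul]
  rw [← C_eq_natCast]
  simp only [map_natCast]
  ring

/-- one step -/
theorem one_step (h_rr : S_rr) (h_convop : S_convop) (h_uniq : S_uniq) (m : ℕ)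
    (a : Fin (m + 2) → ℝ) (e : ℝ) (he : 0 ≤ e) :
    ∃ c : Fin (m + 2) → ℝ, P c = TT e (P a) := by
  set w : ℝ := Real.sqrt (e * ((m + 2 : ℝ) * (m + 1))) with hw
  have hw2 : w ^ 2 = e * ((m + 2 : ℝ) * (m + 1)) := Real.sq_sqrt (by positivity)
  let b : Fin (m + 2) → ℝ := Fin.cons w (Fin.cons (-w) (fun _ => 0))
  have hb : P b = X ^ (m + 2) - C (w ^ 2) * X ^ m := by
    unfold P
    rw [Fin.prod_univ_succ, Fin.prod_univ_succ]
    simp only [b, Fin.cons_zero, Fin.cons_succ, C_0, sub_zero, prod_const, card_univ,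
      Fintype.card_fin, C_neg, C_pow]
    ring
  obtain ⟨c, -, hc⟩ := h_rr (m + 2) a b
  refine ⟨c, ?_⟩
  rw [hc, h_convop (m + 2) (P a) (P b) (h_uniq.2.2.1 _ a).2.le, TT_apply, hb]
  have hterm : ∀ k ∈ range (m + 2 + 1),
      C ((Nat.factorial (m + 2 - k) : ℝ) / (Nat.factorial (m + 2) : ℝ) *
        (X ^ (m + 2) - C (w ^ 2) * X ^ m : ℝ[X]).coeff (m + 2 - k)) * derivative^[k] (P a) =
      (if k = 0 then P a else 0) + if k = 2 then - (C e * derivative (derivative (P a))) else 0 := by
    intro k hk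
    rw [mem_range] at hk
    rw [coeff_sub, coeff_X_pow, coeff_C_mul, coeff_X_pow]
    rcases Nat.eq_zero_or_pos k with rfl | h0
    · have h1 : (Nat.factorial (m + 2) : ℝ) ≠ 0 := by positivity
      simp [h1]
    · by_cases h2 : k = 2
      · subst h2
        have h3 : ¬ (m + 2 - 2 = m + 2) := by omega
        have h4 : m + 2 - 2 = m := by omega
        rw [if_neg h3, if_pos h4, if_neg (by norm_num), if_pos rfl, h4, mul_one, zero_sub, zero_add]
        have h5 : (Nat.factorial m : ℝ) / (Nat.factorial (m + 2) : ℝ) * -w ^ 2 = -e := by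
          rw [hw2, Nat.factorial_succ, Nat.factorial_succ]
          push_cast
          have h6 : (Nat.factorial m : ℝ) ≠ 0 := by positivity
          field_simp
          ring
        rw [h5, C_neg]
        show -C e * derivative (derivative (P a)) = _
        ring
      · have h3 : ¬ (m + 2 - k = m + 2) := by omega
        have h4 : ¬ (m + 2 - k = m) := by omega
        rw [if_neg h3, if_neg h4, if_neg (by omega), if_neg h2]
        simp
  rw [sum_congr rfl hterm, sum_add_distrib, sum_ite_eq' (range (m + 2 + 1)) 0,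
    sum_ite_eq' (range (m + 2 + 1)) 2, if_pos (mem_range.2 (by omega)),
    if_pos (mem_range.2 (by omega))]
  ring

theorem steps (h_rr : S_rr) (h_convop : S_convop) (h_uniq : S_uniq) (m : ℕ)
    (a : Fin (m + 2) → ℝ) (e : ℝ) (he : 0 ≤ e) (n : ℕ) :
    ∃ c : Fin (m + 2) → ℝ, P c = ((TT e) ^ n) (P a) := by
  induction n with
  | zero => exact ⟨a, by simp⟩
  | succ n ih =>
    obtain ⟨c, hc⟩ := ih
    obtain ⟨c', hc'⟩ := one_step h_rr h_convop h_uniq m c e he
    refine ⟨c', ?_⟩
    rw [hc', hc, pow_succ', Module.End.mul_apply]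

/-- binomial coefficients -/
theorem choose_lim (k : ℕ) :
    Tendsto (fun n : ℕ => (n.choose k : ℝ) / (n : ℝ) ^ k) atTop (𝓝 (1 / (Nat.factorial k : ℝ))) := by
  have h1 : ∀ k : ℕ, Tendsto (fun n : ℕ => (n.descFactorial k : ℝ) / (n : ℝ) ^ k) atTop (𝓝 1) := by
    intro k
    induction k with
    | zero => simp
    | succ k ih =>
      have h2 : Tendsto (fun n : ℕ => ((n - k : ℕ) : ℝ) / (n : ℝ)) atTop (𝓝 1) := by
        have h3 : Tendsto (fun n : ℕ => 1 - (k : ℝ) / (n : ℝ)) atTop (𝓝 (1 - 0)) :=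
          tendsto_const_nhds.sub (tendsto_const_div_atTop_nhds_zero_nat (k : ℝ))
        rw [sub_zero] at h3
        refine h3.congr' ?_
        filter_upwards [eventually_ge_atTop (k + 1)] with n hn
        have h4 : (n : ℝ) ≠ 0 := by
          have : 0 < n := by omega
          positivity
        rw [Nat.cast_sub (by omega)]
        field_simp
      have h3 := h2.mul ih
      rw [one_mul] at h3
      refine h3.congr fun n => ?_
      rw [Nat.descFactorial_succ, pow_succ]
      push_cast
      rw [div_mul_div_comm, mul_comm ((n : ℝ) ^ k)]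
  have h2 := (h1 k).div_const (Nat.factorial k : ℝ)
  refine h2.congr fun n => ?_
  rw [Nat.choose_eq_descFactorial_div_factorial, Nat.cast_div (Nat.factorial_dvd_descFactorial n k)
    (by positivity)]
  rw [div_div, div_div, mul_comm]

theorem aeval_P {d : ℕ} (c : Fin d → ℝ) (z : ℂ) : |z.im| ^ d ≤ ‖aeval z (P c)‖ := by
  unfold P
  rw [map_prod, norm_prod]
  have h1 : |z.im| ^ d = ∏ _i : Fin d, |z.im| := by simp
  rw [h1]
  refine prod_le_prod (fun _ _ => abs_nonneg _) fun i _ => ?_
  rw [map_sub, aeval_X, aeval_C]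
  have h2 : (z - algebraMap ℝ ℂ (c i)).im = z.im := by simp
  rw [← h2]
  exact Complex.abs_im_le_norm _

theorem heat_monic {d : ℕ} (hd : 1 ≤ d) (s : ℝ) (p : ℝ[X]) (hp : p.Monic) (hpd : p.natDegree = d) :
    (heat d s p).Monic ∧ (heat d s p).natDegree = d := by
  have hpdeg : p.degree = d := by
    rw [degree_eq_natDegree hp.ne_zero, hpd]
  have h1 : heat d s p = p + ∑ k ∈ range d, C ((-(s / (2 * ((d : ℝ) - 1)))) ^ (k + 1) /
      (Nat.factorial (k + 1) : ℝ)) * derivative^[2 * (k + 1)] p := by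
    unfold heat
    rw [sum_range_succ', add_comm]
    congr 1
    simp
  have h2 : ∑ k ∈ range d, C ((-(s / (2 * ((d : ℝ) - 1)))) ^ (k + 1) /
      (Nat.factorial (k + 1) : ℝ)) * derivative^[2 * (k + 1)] p ∈ degreeLT ℝ d := by
    refine Submodule.sum_mem _ fun k _ => ?_
    rw [← smul_eq_C_mul]
    refine Submodule.smul_mem _ _ ?_
    rw [mem_degreeLT]
    refine lt_of_le_of_lt degree_le_natDegree ?_
    have h3 := natDegree_iterate_derivative p (2 * (k + 1))
    rw [hpd] at h3
    have h4 : (derivative^[2 * (k + 1)] p).natDegree < d := by omega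
    exact_mod_cast h4
  rw [mem_degreeLT] at h2
  rw [h1]
  have h5 : (∑ k ∈ range d, C ((-(s / (2 * ((d : ℝ) - 1)))) ^ (k + 1) /
      (Nat.factorial (k + 1) : ℝ)) * derivative^[2 * (k + 1)] p).degree < p.degree := by
    rw [hpdeg]
    exact h2
  refine ⟨hp.add_of_left h5, ?_⟩
  rw [natDegree_add_eq_left_of_degree_lt h5, hpd]

/-- JOB HEATRR -/
theorem t_heatrr (h_rr : S_rr) (h_convop : S_convop) (h_uniq : S_uniq) : S_heatrr := by
  intro d a s hd hs
  obtain ⟨m, rfl⟩ : ∃ m, d = m + 2 := ⟨d - 2, by omega⟩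
  set p := P a with hp
  obtain ⟨hpm, hpd⟩ := h_uniq.2.2.1 (m + 2) a
  obtain ⟨hm, hdeg⟩ := heat_monic (d := m + 2) (by omega) s p hpm hpd
  refine h_uniq.2.2.2.1 (m + 2) (heat (m + 2) s p) hm hdeg ?_
  intro z hz
  rw [eval_map_algebraMap] at hz
  by_contra him
  set ε : ℝ := s / (2 * (((m + 2 : ℕ) : ℝ) - 1)) with hε
  have hε0 : 0 ≤ ε := by
    rw [hε]
    apply div_nonneg hs
    push_cast
    have : (0 : ℝ) ≤ m := Nat.cast_nonneg _
    linarith
  have hlim : Tendsto (fun n : ℕ => aeval z (((TT (ε / n)) ^ n) p)) atTop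
      (𝓝 (aeval z (heat (m + 2) s p))) := by
    have h1 : ∀ n : ℕ, 1 ≤ n → ((TT (ε / n)) ^ n) p = ∑ k ∈ range (m + 2 + 1),
        C ((n.choose k : ℝ) / (n : ℝ) ^ k * (-ε) ^ k) * derivative^[2 * k] p := by
      intro n hn
      have hn0 : (n : ℝ) ≠ 0 := by positivity
      rw [TT_pow]
      have h2 : ∀ k, C ((n.choose k : ℝ) * (-(ε / n)) ^ k) * derivative^[2 * k] p =
          C ((n.choose k : ℝ) / (n : ℝ) ^ k * (-ε) ^ k) * derivative^[2 * k] p := by
        intro k
        congr 2
        rw [← neg_div, div_pow]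
        ring
      rw [sum_congr rfl fun k _ => h2 k]
      have h3 : range (n + 1) ⊆ range (n + m + 3) := range_subset_range.2 (by omega)
      have h4 : range (m + 2 + 1) ⊆ range (n + m + 3) := range_subset_range.2 (by omega)
      rw [sum_subset h3, ← sum_subset h4]
      · intro k _ hk
        rw [mem_range, not_lt] at hk
        rw [iterate_derivative_eq_zero (by rw [hpd]; omega), mul_zero]
      · intro k _ hk
        rw [mem_range, not_lt] at hk
        rw [Nat.choose_eq_zero_of_lt (by omega)]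
        simp
    have h2 : Tendsto (fun n : ℕ => ∑ k ∈ range (m + 2 + 1),
        (((n.choose k : ℝ) / (n : ℝ) ^ k * (-ε) ^ k : ℝ) : ℂ) * aeval z (derivative^[2 * k] p)) atTop
        (𝓝 (∑ k ∈ range (m + 2 + 1),
          ((1 / (Nat.factorial k : ℝ) * (-ε) ^ k : ℝ) : ℂ) * aeval z (derivative^[2 * k] p))) := by
      refine tendsto_finsetSum _ fun k _ => ?_
      refine Tendsto.mul_const _ ?_
      exact (Complex.continuous_ofReal.tendsto _).comp ((choose_lim k).mul_const _)
    have h3 : aeval z (heat (m + 2) s p) = ∑ k ∈ range (m + 2 + 1),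
          ((1 / (Nat.factorial k : ℝ) * (-ε) ^ k : ℝ) : ℂ) * aeval z (derivative^[2 * k] p) := by
      unfold heat
      rw [map_sum]
      refine sum_congr rfl fun k _ => ?_
      rw [map_mul, aeval_C, ← hε]
      congr 1
      rw [Complex.coe_algebraMap]
      congr 1
      ring
    rw [h3]
    refine h2.congr' ?_
    filter_upwards [eventually_ge_atTop 1] with n hn
    rw [h1 n hn, map_sum]
    refine sum_congr rfl fun k _ => ?_
    rw [map_mul, aeval_C]
    rfl
  have hge : |z.im| ^ (m + 2) ≤ ‖aeval z (heat (m + 2) s p)‖ := by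
    refine ge_of_tendsto' hlim.norm fun n => ?_
    obtain ⟨c, hc⟩ := steps h_rr h_convop h_uniq m a (ε / n) (by positivity) n
    rw [← hc]
    exact aeval_P c z
  rw [hz, norm_zero] at hge
  have : 0 < |z.im| ^ (m + 2) := by
    have := abs_pos.2 him
    positivity
  linarith

end Pool.Agent.Q95.FF
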